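import Mathlib

set_option autoImplicit false

namespace Pool.Agent.H996.LS

open Finset

/-- `centralBinom m ^ 2 * (2 m + 1) ≤ 16 ^ m` -/
theorem centralBinom_sq (m : ℕ) : (Nat.centralBinom m) ^ 2 * (2 * m + 1) ≤ 16 ^ m := by
  induction m with
  | zero => simp
  | succ n ih =>
    have h := Nat.succ_mul_centralBinom_succ n
    have h1 : (n + 1) ^ 2 * (Nat.centralBinom (n + 1) ^ 2 * (2 * (n + 1) + 1)) ≤
        (n + 1) ^ 2 * 16 ^ (n + 1) := by
      calc (n + 1) ^ 2 * (Nat.centralBinom (n + 1) ^ 2 * (2 * (n + 1) + 1))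
          = ((n + 1) * Nat.centralBinom (n + 1)) ^ 2 * (2 * (n + 1) + 1) := by ring
        _ = (Nat.centralBinom n ^ 2 * (2 * n + 1)) * (4 * (2 * n + 1) * (2 * n + 3)) := by
            rw [h]; ring
        _ ≤ 16 ^ n * (4 * (2 * n + 1) * (2 * n + 3)) := Nat.mul_le_mul_right _ ih
        _ ≤ 16 ^ n * (16 * (n + 1) ^ 2) := by
            apply Nat.mul_le_mul_left
            nlinarith
        _ = (n + 1) ^ 2 * 16 ^ (n + 1) := by ring
    exact Nat.le_of_mul_le_mul_left h1 (by positivity)

/-- the number of `T ⊆ {0, …, d-1}` with `2 |T| = d` is at most `2 ^ d / √(d + 1)` -/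
theorem card_half (d : ℕ) :
    ((((range d).powerset.filter (fun T => 2 * T.card = d)).card : ℕ) : ℝ) ≤
      2 ^ d / Real.sqrt (d + 1) := by
  rcases Nat.even_or_odd' d with ⟨m, rfl | rfl⟩
  · have h1 : (range (2 * m)).powerset.filter (fun T => 2 * T.card = 2 * m) =
        powersetCard m (range (2 * m)) := by
      ext T
      simp only [mem_filter, mem_powerset, mem_powersetCard]
      constructor
      · rintro ⟨h, h'⟩; exact ⟨h, by omega⟩
      · rintro ⟨h, h'⟩; exact ⟨h, by omega⟩
    rw [h1, card_powersetCard, card_range]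
    have h2 : (2 * m).choose m = Nat.centralBinom m := rfl
    rw [h2]
    have h3 := centralBinom_sq m
    have hs : (0 : ℝ) < Real.sqrt ((2 * m : ℕ) + 1) := Real.sqrt_pos.2 (by positivity)
    rw [le_div_iff₀ hs]
    have h4 : ((Nat.centralBinom m : ℝ)) ^ 2 * (2 * m + 1) ≤ 16 ^ m := by exact_mod_cast h3
    have h5 : ((Nat.centralBinom m : ℝ) * Real.sqrt ((2 * m : ℕ) + 1)) ^ 2 ≤ ((2 : ℝ) ^ (2 * m)) ^ 2 := by
      rw [mul_pow, Real.sq_sqrt (by positivity)]
      have : ((2 : ℝ) ^ (2 * m)) ^ 2 = 16 ^ m := by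
        rw [← pow_mul, show 2 * m * 2 = 4 * m by ring, pow_mul]; norm_num
      rw [this]
      push_cast
      exact h4
    exact le_of_pow_le_pow_left₀ two_ne_zero (by positivity) h5
  · have h1 : (range (2 * m + 1)).powerset.filter (fun T => 2 * T.card = 2 * m + 1) = ∅ := by
      apply filter_eq_empty_iff.2
      intro T _ h
      omega
    rw [h1]
    simp only [card_empty, Nat.cast_zero]
    positivity

/-- `∑_{d < n} 1 / √(d + 1) ≤ 2 √n` -/
theorem sum_inv_sqrt (n : ℕ) : ∑ d ∈ range n, 1 / Real.sqrt (d + 1) ≤ 2 * Real.sqrt n := by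
  induction n with
  | zero => simp
  | succ n ih =>
    rw [sum_range_succ]
    have hs : (0 : ℝ) < Real.sqrt ((n : ℝ) + 1) := Real.sqrt_pos.2 (by positivity)
    have h1 : 1 / Real.sqrt ((n : ℝ) + 1) ≤ 2 * Real.sqrt ((n : ℝ) + 1) - 2 * Real.sqrt n := by
      rw [div_le_iff₀ hs]
      have h2 := Real.sq_sqrt (show (0 : ℝ) ≤ (n : ℝ) + 1 by positivity)
      have h3 := Real.sq_sqrt (show (0 : ℝ) ≤ (n : ℝ) by positivity)
      nlinarith [sq_nonneg (Real.sqrt ((n : ℝ) + 1) - Real.sqrt n)]
    push_cast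
    linarith

/-- Windows: a set `V ⊆ {0, …, p-1}` with few pairs at distance `< L` is small. -/
theorem windows (p L : ℕ) (hL : 1 ≤ L) (V : Finset ℕ) (hV : V ⊆ range p) :
    (V.card) ^ 2 ≤ (p / L + 1) *
      (V.card + 2 * ∑ d ∈ Ico 1 L, (V.filter (fun t => t + d ∈ V)).card) := by
  classical
  set z : ℕ → ℕ := fun k => (V.filter (fun t => t / L = k)).card with hz
  have h1 : V.card = ∑ k ∈ range (p / L + 1), z k := by
    rw [hz]
    refine card_eq_sum_card_fiberwise (f := fun t => t / L) (t := range (p / L + 1)) ?_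
    intro t ht
    have : t < p := mem_range.1 (hV ht)
    simp only [coe_range, Set.mem_Iio]
    exact Nat.lt_succ_of_le (Nat.div_le_div_right this.le)
  have h2 : (∑ k ∈ range (p / L + 1), z k) ^ 2 ≤ (p / L + 1) * ∑ k ∈ range (p / L + 1), (z k) ^ 2 := by
    have := sq_sum_le_card_mul_sum_sq (s := range (p / L + 1)) (f := z)
    rwa [card_range] at this
  have h3 : ∑ k ∈ range (p / L + 1), (z k) ^ 2 =
      ∑ t ∈ V, (V.filter (fun s => s / L = t / L)).card := by
    have : ∀ t ∈ V, t / L ∈ range (p / L + 1) := by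
      intro t ht
      have : t < p := mem_range.1 (hV ht)
      exact mem_range.2 (Nat.lt_succ_of_le (Nat.div_le_div_right this.le))
    rw [← sum_fiberwise_of_maps_to this (fun t => (V.filter (fun s => s / L = t / L)).card)]
    refine sum_congr rfl fun k _ => ?_
    rw [sum_congr rfl (g := fun _ => z k)]
    · rw [sum_const, smul_eq_mul, sq]
    · intro t ht
      rw [(mem_filter.1 ht).2]
  have h4 : ∀ t ∈ V, (V.filter (fun s => s / L = t / L)).card ≤
      1 + ∑ d ∈ Ico 1 L, ((if t + d ∈ V then 1 else 0) + (if (d ≤ t ∧ t - d ∈ V) then 1 else 0)) := by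
    intro t ht
    have hsub : V.filter (fun s => s / L = t / L) ⊆
        {t} ∪ (((Ico 1 L).filter (fun d => t + d ∈ V)).image (fun d => t + d) ∪
          ((Ico 1 L).filter (fun d => d ≤ t ∧ t - d ∈ V)).image (fun d => t - d)) := by
      intro s hs
      obtain ⟨hs1, hs2⟩ := mem_filter.1 hs
      simp only [mem_union, mem_singleton, mem_image, mem_filter, mem_Ico]
      have e1 := Nat.div_add_mod s L
      have e2 := Nat.div_add_mod t L
      have e3 := Nat.mod_lt s (show 0 < L by omega)
      have e4 := Nat.mod_lt t (show 0 < L by omega)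
      rw [hs2] at e1
      rcases lt_trichotomy s t with h | h | h
      · right; right
        exact ⟨t - s, ⟨⟨by omega, by omega⟩, by omega, by rwa [show t - (t - s) = s by omega]⟩, by omega⟩
      · left; exact h
      · right; left
        exact ⟨s - t, ⟨⟨by omega, by omega⟩, by rwa [show t + (s - t) = s by omega]⟩, by omega⟩
    refine (card_le_card hsub).trans ((card_union_le _ _).trans ?_)
    rw [card_singleton]
    refine Nat.add_le_add_left ((card_union_le _ _).trans ?_) 1
    rw [sum_add_distrib]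
    refine Nat.add_le_add (card_image_le.trans ?_) (card_image_le.trans ?_)
    · rw [card_filter]
    · rw [card_filter]
  have h5 : ∑ t ∈ V, (V.filter (fun s => s / L = t / L)).card ≤
      V.card + 2 * ∑ d ∈ Ico 1 L, (V.filter (fun t => t + d ∈ V)).card := by
    refine (sum_le_sum h4).trans ?_
    rw [sum_add_distrib, sum_const, smul_eq_mul, mul_one, sum_comm]
    refine Nat.add_le_add_left ?_ _
    rw [mul_sum]
    refine sum_le_sum fun d _ => ?_
    rw [sum_add_distrib, two_mul, ← card_filter, ← card_filter]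
    refine Nat.add_le_add_left ?_ _
    refine card_le_card_of_injOn (fun t => t - d) ?_ ?_
    · intro t ht
      obtain ⟨h6, h7, h8⟩ := mem_filter.1 (mem_coe.1 ht)
      refine mem_coe.2 (mem_filter.2 ⟨h8, ?_⟩)
      rwa [show t - d + d = t by omega]
    · intro t ht s hs hts
      obtain ⟨h6, h7, h8⟩ := mem_filter.1 (mem_coe.1 ht)
      obtain ⟨h6', h7', h8'⟩ := mem_filter.1 (mem_coe.1 hs)
      simp only at hts
      omega
  calc V.card ^ 2 = (∑ k ∈ range (p / L + 1), z k) ^ 2 := by rw [← h1]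
    _ ≤ _ := h2
    _ ≤ _ := Nat.mul_le_mul_left _ (by rw [h3]; exact h5)

end Pool.Agent.H996.LS
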