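import Mathlib
import Pool.Agent.H341R2.WeilSharp
import Pool.Agent.H996.LS1

set_option autoImplicit false

namespace Pool.Agent.H996.LS

open Finset Polynomial

variable {p : ℕ} [Fact p.Prime]

/-- Weil's bound for `∑_x ∏_{j ∈ S} χ(x + j + 1)`, `S ⊆ {0, …, d-1}` not empty -/
theorem weil_shift (hp2 : p ≠ 2) (d : ℕ) (hd : d ≤ p) (S : Finset ℕ) (hS : S ⊆ range d)
    (hne : S.Nonempty) :
    |∑ x : ZMod p, ∏ j ∈ S, (quadraticChar (ZMod p) (x + ((j : ZMod p) + 1)) : ℝ)| ≤
      d * Real.sqrt p := by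
  classical
  have hF : ringChar (ZMod p) ≠ 2 := by
    rw [ZMod.ringChar_zmod_n]; exact hp2
  set f : (ZMod p)[X] := ∏ j ∈ S, (X - C (-((j : ZMod p) + 1))) with hf
  have hinj : Set.InjOn (fun j : ℕ => -((j : ZMod p) + 1)) (S : Set ℕ) := by
    intro i hi j hj hij
    have hi' : i < p := lt_of_lt_of_le (mem_range.1 (hS hi)) hd
    have hj' : j < p := lt_of_lt_of_le (mem_range.1 (hS hj)) hd
    have : (i : ZMod p) = (j : ZMod p) := by
      simpa using hij
    rw [ZMod.natCast_eq_natCast_iff'] at this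
    rwa [Nat.mod_eq_of_lt hi', Nat.mod_eq_of_lt hj'] at this
  have hsep : f.Separable := by
    rw [hf]
    exact (separable_prod_X_sub_C_iff' (f := fun j : ℕ => -((j : ZMod p) + 1))).2 hinj
  have hdeg : f.natDegree = S.card := by
    rw [hf, natDegree_prod_of_monic _ _ (fun j _ => monic_X_sub_C _)]
    simp only [natDegree_X_sub_C, sum_const, smul_eq_mul, mul_one]
  have hd1 : 1 ≤ f.natDegree := by
    rw [hdeg]; exact hne.card_pos
  have hns : ∀ (c : ZMod p) (h : (ZMod p)[X]), f ≠ C c * h ^ 2 := by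
    intro c h hch
    have hsq := hsep.squarefree
    have hu : IsUnit h := hsq h ⟨C c, by rw [hch]; ring⟩
    have h0 : h.natDegree = 0 := natDegree_eq_zero_of_isUnit hu
    have : f.natDegree = 0 := by
      rw [hch]
      have h1 := natDegree_C_mul_le c (h ^ 2)
      have h2 : (h ^ 2).natDegree ≤ 2 * h.natDegree := natDegree_pow_le
      omega
    omega
  have hw := Pool.Agent.H341R2.Sharp.weil_sharp hF f hd1 hns
  rw [ZMod.card, hdeg] at hw
  have heq : ∑ x : ZMod p, ∏ j ∈ S, (quadraticChar (ZMod p) (x + ((j : ZMod p) + 1)) : ℝ) =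
      ∑ x : ZMod p, (quadraticChar (ZMod p) (f.eval x) : ℝ) := by
    refine sum_congr rfl fun x _ => ?_
    rw [hf, eval_prod, map_prod]
    push_cast
    refine prod_congr rfl fun j _ => ?_
    rw [eval_sub, eval_X, eval_C, sub_neg_eq_add]
  rw [heq]
  refine hw.trans ?_
  have hc : (S.card : ℝ) ≤ d := by
    have := card_le_card hS
    rw [card_range] at this
    exact_mod_cast this
  have hs : (0 : ℝ) ≤ Real.sqrt p := Real.sqrt_nonneg _
  nlinarith

/-- number of `x` with prescribed signs `χ(x + 1), …, χ(x + d)` -/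
theorem pattern (hp2 : p ≠ 2) (d : ℕ) (hd : d ≤ p) (T : Finset ℕ) :
    (((univ : Finset (ZMod p)).filter (fun x => ∀ j ∈ range d,
      quadraticChar (ZMod p) (x + ((j : ZMod p) + 1)) = if j ∈ T then 1 else -1)).card : ℝ) ≤
      p / 2 ^ d + d * Real.sqrt p := by
  classical
  set e : ℕ → ℝ := fun j => if j ∈ T then 1 else -1 with he
  set χ : ℕ → ZMod p → ℝ := fun j x => (quadraticChar (ZMod p) (x + ((j : ZMod p) + 1)) : ℝ) with hχ
  have hcases : ∀ j x, χ j x = 0 ∨ χ j x = 1 ∨ χ j x = -1 := by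
    intro j x
    rw [hχ]
    by_cases h0 : x + ((j : ZMod p) + 1) = 0
    · left; simp [h0]
    · rcases quadraticChar_dichotomy h0 with h | h
      · right; left; simp [h]
      · right; right; simp [h]
  have hecases : ∀ j, e j = 1 ∨ e j = -1 := by
    intro j; rw [he]; by_cases h : j ∈ T <;> simp [h]
  have h1 : (2 : ℝ) ^ d * (((univ : Finset (ZMod p)).filter (fun x => ∀ j ∈ range d,
      quadraticChar (ZMod p) (x + ((j : ZMod p) + 1)) = if j ∈ T then 1 else -1)).card : ℝ) ≤
      ∑ x : ZMod p, ∏ j ∈ range d, (1 + e j * χ j x) := by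
    rw [mul_comm, ← nsmul_eq_mul, ← sum_const]
    refine le_trans (le_of_eq ?_) (sum_le_sum_of_subset_of_nonneg
      (f := fun x : ZMod p => ∏ j ∈ range d, (1 + e j * χ j x)) (filter_subset (fun x : ZMod p =>
      ∀ j ∈ range d, quadraticChar (ZMod p) (x + ((j : ZMod p) + 1)) = if j ∈ T then 1 else -1)
      (univ : Finset (ZMod p))) ?_)
    · refine sum_congr rfl fun x hx => ?_
      have hx' := (mem_filter.1 hx).2
      rw [prod_congr rfl (g := fun _ => (2 : ℝ)), prod_const, card_range]
      intro j hj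
      have h2 := hx' j hj
      rw [he, hχ]
      simp only [h2]
      by_cases h : j ∈ T
      · simp [h]; norm_num
      · simp [h]; norm_num
    · intro x _ _
      refine prod_nonneg fun j _ => ?_
      rcases hcases j x with h | h | h <;> rcases hecases j with h' | h' <;> rw [h, h'] <;> norm_num
  have h2 : ∑ x : ZMod p, ∏ j ∈ range d, (1 + e j * χ j x) =
      ∑ S ∈ (range d).powerset, (∏ j ∈ S, e j) * ∑ x : ZMod p, ∏ j ∈ S, χ j x := by
    simp_rw [prod_one_add]
    rw [sum_comm]
    refine sum_congr rfl fun S _ => ?_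
    rw [mul_sum]
    refine sum_congr rfl fun x _ => ?_
    rw [← prod_mul_distrib]
  have habs : ∀ S : Finset ℕ, |∏ j ∈ S, e j| = 1 := by
    intro S
    rw [abs_prod]
    refine prod_eq_one fun j _ => ?_
    rcases hecases j with h | h <;> rw [h] <;> norm_num
  have hp0 : (0 : ℝ) < p := by exact_mod_cast (Fact.out : p.Prime).pos
  have h3 : ∑ S ∈ (range d).powerset, (∏ j ∈ S, e j) * ∑ x : ZMod p, ∏ j ∈ S, χ j x ≤
      p + 2 ^ d * (d * Real.sqrt p) := by
    rw [← add_sum_erase _ _ (empty_mem_powerset (range d))]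
    refine add_le_add (le_of_eq ?_) ?_
    · simp
    · have h4 : ∀ S ∈ (range d).powerset.erase ∅,
          (∏ j ∈ S, e j) * ∑ x : ZMod p, ∏ j ∈ S, χ j x ≤ d * Real.sqrt p := by
        intro S hS
        obtain ⟨hS1, hS2⟩ := mem_erase.1 hS
        refine (le_abs_self _).trans ?_
        rw [abs_mul, habs, one_mul]
        exact weil_shift hp2 d hd S (mem_powerset.1 hS2) (nonempty_iff_ne_empty.2 hS1)
      refine (sum_le_sum h4).trans ?_
      rw [sum_const, nsmul_eq_mul]
      refine mul_le_mul_of_nonneg_right ?_ (by positivity)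
      have := card_le_card (erase_subset (∅ : Finset ℕ) (range d).powerset)
      rw [card_powerset, card_range] at this
      exact_mod_cast this
  have h5 := h1.trans (h2.le.trans h3)
  have h6 : (0 : ℝ) < 2 ^ d := by positivity
  rw [show (p : ℝ) / 2 ^ d + d * Real.sqrt p = (p + 2 ^ d * (d * Real.sqrt p)) / 2 ^ d by
    field_simp]
  rw [le_div_iff₀ h6, mul_comm]
  exact h5

/-- few `x` with `χ(x + 1) + … + χ(x + d) = 0` -/
theorem zero_sum (hp2 : p ≠ 2) (d : ℕ) (hd : d ≤ p) :
    (((univ : Finset (ZMod p)).filter (fun x =>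
      ∑ j ∈ range d, quadraticChar (ZMod p) (x + ((j : ZMod p) + 1)) = 0)).card : ℝ) ≤
      d + p / Real.sqrt (d + 1) + 2 ^ d * d * Real.sqrt p := by
  classical
  set A := (univ : Finset (ZMod p)).filter (fun x =>
      ∑ j ∈ range d, quadraticChar (ZMod p) (x + ((j : ZMod p) + 1)) = 0) with hA
  set 𝒯 := (range d).powerset.filter (fun T => 2 * T.card = d) with h𝒯
  have hsub : A ⊆ (range d).image (fun j : ℕ => -((j : ZMod p) + 1)) ∪
      𝒯.biUnion (fun T => (univ : Finset (ZMod p)).filter (fun x => ∀ j ∈ range d,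
        quadraticChar (ZMod p) (x + ((j : ZMod p) + 1)) = if j ∈ T then 1 else -1)) := by
    intro x hx
    have hx' := (mem_filter.1 hx).2
    rw [mem_union]
    by_cases hbad : ∃ j ∈ range d, x + ((j : ZMod p) + 1) = 0
    · left
      obtain ⟨j, hj, hj'⟩ := hbad
      exact mem_image.2 ⟨j, hj, (eq_neg_of_add_eq_zero_left hj').symm⟩
    · right
      push Not at hbad
      set T := (range d).filter (fun j : ℕ => quadraticChar (ZMod p) (x + ((j : ZMod p) + 1)) = 1)
        with hT
      have hpat : ∀ j ∈ range d,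
          quadraticChar (ZMod p) (x + ((j : ZMod p) + 1)) = if j ∈ T then 1 else -1 := by
        intro j hj
        by_cases h : j ∈ T
        · rw [if_pos h]; exact (mem_filter.1 h).2
        · rw [if_neg h]
          rcases quadraticChar_dichotomy (hbad j hj) with h' | h'
          · exact absurd (mem_filter.2 ⟨hj, h'⟩) h
          · exact h'
      refine mem_biUnion.2 ⟨T, mem_filter.2 ⟨mem_powerset.2 (filter_subset _ _), ?_⟩,
        mem_filter.2 ⟨mem_univ _, hpat⟩⟩
      rw [sum_congr rfl hpat, ← sum_filter_add_sum_filter_not (range d) (fun j => j ∈ T)] at hx'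
      rw [sum_congr rfl (g := fun _ => (1 : ℤ)) (fun j hj => by rw [if_pos (mem_filter.1 hj).2]),
        sum_congr (s₁ := (range d).filter (fun j => j ∉ T)) rfl (g := fun _ => (-1 : ℤ))
          (fun j hj => by rw [if_neg (mem_filter.1 hj).2])] at hx'
      rw [sum_const, sum_const] at hx'
      have e1 : (range d).filter (fun j => j ∈ T) = T := by
        ext j
        simp only [hT, mem_filter]
        tauto
      have e2 := card_filter_add_card_filter_not (s := range d) (fun j => j ∈ T)
      rw [e1] at hx' e2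
      rw [card_range] at e2
      simp only [nsmul_eq_mul, mul_one, mul_neg] at hx'
      omega
  have h1 : (A.card : ℝ) ≤ d + 𝒯.card * (p / 2 ^ d + d * Real.sqrt p) := by
    have h2 := (card_le_card hsub).trans (card_union_le _ _)
    have h3 : ((range d).image (fun j : ℕ => -((j : ZMod p) + 1))).card ≤ d := by
      simpa using card_image_le (s := range d) (f := fun j : ℕ => -((j : ZMod p) + 1))
    have h4 : (((𝒯.biUnion (fun T => (univ : Finset (ZMod p)).filter (fun x => ∀ j ∈ range d,
        quadraticChar (ZMod p) (x + ((j : ZMod p) + 1)) = if j ∈ T then 1 else -1))).card : ℕ) : ℝ)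
        ≤ 𝒯.card * (p / 2 ^ d + d * Real.sqrt p) := by
      have h5 := card_biUnion_le (s := 𝒯) (t := fun T => (univ : Finset (ZMod p)).filter
        (fun x => ∀ j ∈ range d,
        quadraticChar (ZMod p) (x + ((j : ZMod p) + 1)) = if j ∈ T then 1 else -1))
      refine (Nat.cast_le.2 h5).trans ?_
      push_cast
      refine (sum_le_sum (fun T _ => pattern hp2 d hd T)).trans ?_
      rw [sum_const, nsmul_eq_mul]
    have h6 : (A.card : ℝ) ≤ (((range d).image (fun j : ℕ => -((j : ZMod p) + 1))).card : ℝ) +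
        (((𝒯.biUnion (fun T => (univ : Finset (ZMod p)).filter (fun x => ∀ j ∈ range d,
        quadraticChar (ZMod p) (x + ((j : ZMod p) + 1)) = if j ∈ T then 1 else -1))).card : ℕ) : ℝ) := by
      exact_mod_cast h2
    have h7 : (((range d).image (fun j : ℕ => -((j : ZMod p) + 1))).card : ℝ) ≤ d := by
      exact_mod_cast h3
    linarith
  have h8 := card_half d
  have hs : (0 : ℝ) < Real.sqrt (d + 1) := Real.sqrt_pos.2 (by positivity)
  have hs1 : (1 : ℝ) ≤ Real.sqrt (d + 1) := by
    rw [Real.one_le_sqrt]; linarith [Nat.cast_nonneg (α := ℝ) d]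
  have h9 : (𝒯.card : ℝ) * (p / 2 ^ d + d * Real.sqrt p) ≤
      (2 ^ d / Real.sqrt (d + 1)) * (p / 2 ^ d + d * Real.sqrt p) :=
    mul_le_mul_of_nonneg_right h8 (by positivity)
  have h10 : (2 ^ d / Real.sqrt (d + 1)) * (p / 2 ^ d + d * Real.sqrt p) ≤
      p / Real.sqrt (d + 1) + 2 ^ d * d * Real.sqrt p := by
    rw [mul_add]
    refine add_le_add (le_of_eq ?_) ?_
    · field_simp
    · have : (2 : ℝ) ^ d / Real.sqrt (d + 1) ≤ 2 ^ d := div_le_self (by positivity) hs1
      calc (2 : ℝ) ^ d / Real.sqrt (d + 1) * (d * Real.sqrt p) ≤ 2 ^ d * (d * Real.sqrt p) :=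
            mul_le_mul_of_nonneg_right this (by positivity)
        _ = 2 ^ d * d * Real.sqrt p := by ring
  linarith

end Pool.Agent.H996.LS
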