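import Mathlib
import Pool.Agent.H996.LS2

set_option autoImplicit false

namespace Pool.Agent.H996.LS

open Finset

variable {p : ℕ} [Fact p.Prime]

/-- the level set of the walk `t ↦ χ(a) + … + χ(a + t)` -/
noncomputable def lev (p : ℕ) [Fact p.Prime] (a : ZMod p) (h : ℤ) : Finset ℕ :=
  (range p).filter (fun t => ∑ j ∈ range (t + 1), quadraticChar (ZMod p) (a + (j : ZMod p)) = h)

theorem pairs (hp2 : p ≠ 2) (a : ZMod p) (h : ℤ) (d : ℕ) (hd : d ≤ p) :
    ((((lev p a h).filter (fun t => t + d ∈ lev p a h)).card : ℕ) : ℝ) ≤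
      d + p / Real.sqrt (d + 1) + 2 ^ d * d * Real.sqrt p := by
  classical
  refine le_trans ?_ (zero_sum hp2 d hd)
  rw [Nat.cast_le]
  refine card_le_card_of_injOn (fun t : ℕ => a + (t : ZMod p)) ?_ ?_
  · intro t ht
    obtain ⟨h1, h2⟩ := mem_filter.1 (mem_coe.1 ht)
    have h3 := (mem_filter.1 h1).2
    have h4 := (mem_filter.1 h2).2
    refine mem_coe.2 (mem_filter.2 ⟨mem_univ _, ?_⟩)
    rw [show t + d + 1 = t + 1 + d by ring, sum_range_add, h3] at h4
    have h5 : ∑ x ∈ range d, quadraticChar (ZMod p) (a + ((t + 1 + x : ℕ) : ZMod p)) = 0 := by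
      linarith
    rw [← h5]
    refine sum_congr rfl fun x _ => ?_
    congr 1
    push_cast
    ring
  · intro t ht s hs hts
    have h1 : t < p := mem_range.1 (mem_filter.1 (mem_filter.1 (mem_coe.1 ht)).1).1
    have h2 : s < p := mem_range.1 (mem_filter.1 (mem_filter.1 (mem_coe.1 hs)).1).1
    have h3 : (t : ZMod p) = (s : ZMod p) := by simpa using hts
    rw [ZMod.natCast_eq_natCast_iff'] at h3
    rwa [Nat.mod_eq_of_lt h1, Nat.mod_eq_of_lt h2] at h3

theorem sq_le_two_mul_two_pow (L : ℕ) : L ^ 2 ≤ 2 * 2 ^ L := by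
  induction L with
  | zero => simp
  | succ n ih =>
    rcases Nat.lt_or_ge n 3 with h | h
    · interval_cases n <;> norm_num
    · rw [pow_succ 2 n]
      nlinarith

/-- the bound with the length `L` of the windows -/
theorem main_L (hp2 : p ≠ 2) (a : ZMod p) (h : ℤ) (L : ℕ) (hL : 1 ≤ L) (hLp : 16 ^ L ≤ p) :
    ((lev p a h).card : ℝ) ^ 2 ≤ 26 * p ^ 2 / Real.sqrt L := by
  classical
  set N : ℝ := ((lev p a h).card : ℝ) with hN
  have hp0 : (0 : ℝ) < p := by exact_mod_cast (Fact.out : p.Prime).pos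
  have hLlt : L < p := by
    have h1 : L < 2 ^ L := Nat.lt_two_pow_self
    have h2 : 2 ^ L ≤ 16 ^ L := Nat.pow_le_pow_left (by norm_num) L
    omega
  have hNp : N ≤ p := by
    have := card_le_card (filter_subset (fun t => ∑ j ∈ range (t + 1),
      quadraticChar (ZMod p) (a + (j : ZMod p)) = h) (range p))
    rw [card_range] at this
    rw [hN]
    exact_mod_cast this
  have hw := windows p L hL (lev p a h) (filter_subset _ _)
  have hw' : N ^ 2 ≤ ((p / L : ℕ) + 1 : ℝ) *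
      (N + 2 * ∑ d ∈ Ico 1 L, ((((lev p a h).filter (fun t => t + d ∈ lev p a h)).card : ℕ) : ℝ)) := by
    rw [hN]
    exact_mod_cast hw
  have hsL : (1 : ℝ) ≤ Real.sqrt L := by
    rw [Real.one_le_sqrt]; exact_mod_cast hL
  have hL0 : (0 : ℝ) < L := by exact_mod_cast hL
  have h16 : (16 : ℝ) ^ L ≤ p := by exact_mod_cast hLp
  have hsp : (4 : ℝ) ^ L ≤ Real.sqrt p := by
    apply Real.le_sqrt_of_sq_le
    rw [← pow_mul, mul_comm, pow_mul]
    norm_num
    exact h16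
  have hspp : Real.sqrt p * Real.sqrt p = p := Real.mul_self_sqrt hp0.le
  have hsp0 : 0 < Real.sqrt p := Real.sqrt_pos.2 hp0
  -- `2 ^ L * 2 ^ L * √p ≤ p`
  have h22 : (2 : ℝ) ^ L * 2 ^ L * Real.sqrt p ≤ p := by
    rw [← mul_pow]
    norm_num
    calc (4 : ℝ) ^ L * Real.sqrt p ≤ Real.sqrt p * Real.sqrt p :=
          mul_le_mul_of_nonneg_right hsp hsp0.le
      _ = p := hspp
  have hLL : ((L : ℝ)) ^ 2 ≤ 2 * 2 ^ L := by exact_mod_cast sq_le_two_mul_two_pow L
  have hT : ∑ d ∈ Ico 1 L, ((((lev p a h).filter (fun t => t + d ∈ lev p a h)).card : ℕ) : ℝ) ≤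
      (L : ℝ) ^ 2 + p * (2 * Real.sqrt L) + (L : ℝ) ^ 2 * 2 ^ L * Real.sqrt p := by
    have h1 : ∀ d ∈ Ico 1 L, ((((lev p a h).filter (fun t => t + d ∈ lev p a h)).card : ℕ) : ℝ) ≤
        (L : ℝ) + p * (1 / Real.sqrt (d + 1)) + L * 2 ^ L * Real.sqrt p := by
      intro d hd
      obtain ⟨hd1, hd2⟩ := mem_Ico.1 hd
      refine (pairs hp2 a h d (by omega)).trans ?_
      have e1 : (d : ℝ) ≤ L := by exact_mod_cast hd2.le
      have e2 : (2 : ℝ) ^ d ≤ 2 ^ L := pow_le_pow_right₀ (by norm_num) hd2.le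
      have e3 : (2 : ℝ) ^ d * d ≤ L * 2 ^ L := by
        calc (2 : ℝ) ^ d * d ≤ 2 ^ L * L := mul_le_mul e2 e1 (by positivity) (by positivity)
          _ = L * 2 ^ L := by ring
      have e4 : (2 : ℝ) ^ d * d * Real.sqrt p ≤ L * 2 ^ L * Real.sqrt p :=
        mul_le_mul_of_nonneg_right e3 hsp0.le
      have e5 : (p : ℝ) / Real.sqrt (d + 1) = p * (1 / Real.sqrt (d + 1)) := by ring
      rw [e5]
      linarith
    refine (sum_le_sum h1).trans ?_
    refine (sum_le_sum_of_subset_of_nonneg (t := range L) ?_ ?_).trans ?_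
    · intro d hd
      exact mem_range.2 (mem_Ico.1 hd).2
    · intro d _ _
      positivity
    · rw [sum_add_distrib, sum_add_distrib, sum_const, sum_const, card_range, ← mul_sum]
      have e6 := sum_inv_sqrt L
      have e7 := mul_le_mul_of_nonneg_left e6 hp0.le
      simp only [nsmul_eq_mul]
      have e8 : (L : ℝ) * (L * 2 ^ L * Real.sqrt p) = (L : ℝ) ^ 2 * 2 ^ L * Real.sqrt p := by ring
      have e9 : (L : ℝ) * L = (L : ℝ) ^ 2 := by ring
      rw [e8, e9]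
      linarith
  have hA : (L : ℝ) ^ 2 * 2 ^ L * Real.sqrt p ≤ 2 * p := by
    have e1 : (L : ℝ) ^ 2 * (2 ^ L * Real.sqrt p) ≤ (2 * 2 ^ L) * (2 ^ L * Real.sqrt p) :=
      mul_le_mul_of_nonneg_right hLL (by positivity)
    have e2 : (L : ℝ) ^ 2 * 2 ^ L * Real.sqrt p = (L : ℝ) ^ 2 * (2 ^ L * Real.sqrt p) := by ring
    have e3 : (2 * 2 ^ L) * (2 ^ L * Real.sqrt p) = 2 * ((2 : ℝ) ^ L * 2 ^ L * Real.sqrt p) := by
      ring
    rw [e2]
    rw [e3] at e1
    linarith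
  have hB : (L : ℝ) ^ 2 ≤ 2 * p := by
    have e1 : (2 : ℝ) ^ L ≤ 16 ^ L := pow_le_pow_left₀ (by norm_num) (by norm_num) L
    linarith
  have hC : ((p / L : ℕ) + 1 : ℝ) ≤ 2 * p / L := by
    have e1 : ((p / L : ℕ) : ℝ) ≤ p / L := Nat.cast_div_le
    have e2 : (1 : ℝ) ≤ p / L := by
      rw [le_div_iff₀ hL0, one_mul]; exact_mod_cast hLlt.le
    have e3 : (2 : ℝ) * p / L = p / L + p / L := by ring
    rw [e3]; linarith
  have hD : N + 2 * ∑ d ∈ Ico 1 L,
      ((((lev p a h).filter (fun t => t + d ∈ lev p a h)).card : ℕ) : ℝ) ≤ 13 * p * Real.sqrt L := by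
    have e1 : (p : ℝ) ≤ p * Real.sqrt L := le_mul_of_one_le_right hp0.le hsL
    have e2 : (p : ℝ) * (2 * Real.sqrt L) = 2 * (p * Real.sqrt L) := by ring
    have e3 : 13 * (p : ℝ) * Real.sqrt L = 13 * (p * Real.sqrt L) := by ring
    rw [e2] at hT
    rw [e3]
    linarith
  have hN0 : 0 ≤ N := Nat.cast_nonneg _
  have hT0 : 0 ≤ ∑ d ∈ Ico 1 L,
      ((((lev p a h).filter (fun t => t + d ∈ lev p a h)).card : ℕ) : ℝ) :=
    sum_nonneg fun d _ => Nat.cast_nonneg _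
  have h13 : 0 ≤ 2 * (p : ℝ) / L := div_nonneg (by linarith) hL0.le
  have hE : N ^ 2 ≤ (2 * p / L) * (13 * p * Real.sqrt L) :=
    hw'.trans (mul_le_mul hC hD (by linarith) h13)
  clear hT hD hC hw' hT0 hA hB
  refine hE.trans (le_of_eq ?_)
  have hss : Real.sqrt L * Real.sqrt L = L := Real.mul_self_sqrt hL0.le
  have hsL0 : Real.sqrt L ≠ 0 := by positivity
  field_simp
  rw [sq (Real.sqrt L), hss]
  ring

end Pool.Agent.H996.LS
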