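import Mathlib
import Pool.Agent.H996.LS3

set_option autoImplicit false

namespace Pool.Agent.H996.LS

open Finset

theorem L_bounds (p : ℕ) (hp : 16 ≤ p) :
    1 ≤ Nat.log 2 p / 4 ∧ 16 ^ (Nat.log 2 p / 4) ≤ p ∧
      Real.log p / 9 ≤ ((Nat.log 2 p / 4 : ℕ) : ℝ) := by
  have h4 : 4 ≤ Nat.log 2 p := by
    rw [Nat.le_log_iff_pow_le (by norm_num) (by omega)]
    norm_num
    exact hp
  refine ⟨by omega, ?_, ?_⟩
  · calc 16 ^ (Nat.log 2 p / 4) = 2 ^ (4 * (Nat.log 2 p / 4)) := by rw [pow_mul]; norm_num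
      _ ≤ 2 ^ Nat.log 2 p := Nat.pow_le_pow_right (by norm_num) (Nat.mul_div_le _ _)
      _ ≤ p := Nat.pow_log_le_self 2 (by omega)
  · have h1 : p < 2 ^ (Nat.log 2 p + 1) := Nat.lt_pow_succ_log_self (by norm_num) p
    have h2 : Real.log p ≤ (Nat.log 2 p : ℝ) + 1 := by
      have h3 : (p : ℝ) ≤ 2 ^ (Nat.log 2 p + 1) := by exact_mod_cast h1.le
      have h5 : Real.log p ≤ Real.log (2 ^ (Nat.log 2 p + 1)) :=
        Real.log_le_log (by exact_mod_cast (show 0 < p by omega)) h3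
      rw [Real.log_pow] at h5
      have h6 : Real.log 2 ≤ 1 := by
        have := Real.log_two_lt_d9
        linarith
      push_cast at h5
      have h7 : ((Nat.log 2 p : ℝ) + 1) * Real.log 2 ≤ ((Nat.log 2 p : ℝ) + 1) * 1 :=
        mul_le_mul_of_nonneg_left h6 (by positivity)
      linarith
    have h8 : Nat.log 2 p + 1 ≤ 9 * (Nat.log 2 p / 4) := by omega
    have h9 : (Nat.log 2 p : ℝ) + 1 ≤ 9 * ((Nat.log 2 p / 4 : ℕ) : ℝ) := by exact_mod_cast h8
    linarith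

end Pool.Agent.H996.LS
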