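import Mathlib
import Pool.Agent.H996.LS3

set_option autoImplicit false

namespace Pool.Agent.H996.LS

open Finset

/-- the number of the `j < n` where the walk with up-steps at the members of `T` is at `0` -/
def ret (n : ℕ) (T : Finset ℕ) : ℕ :=
  ((range n).filter (fun j => 2 * (T ∩ range j).card = j)).card

theorem step_ineq (δ : ℝ) (hδ0 : 0 ≤ δ) (hδ : δ ≤ 1 / 2) (s : ℤ) :
    (1 + δ / 2) ^ (if s = 0 then 1 else 0) *
      ((1 + (1 - δ) ^ (s - 1).natAbs) + (1 + (1 - δ) ^ (s + 1).natAbs)) ≤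
      2 * (1 + δ ^ 2) * (1 + (1 - δ) ^ s.natAbs) := by
  have hq : (0 : ℝ) ≤ 1 - δ := by linarith
  have key : ∀ k : ℕ, (1 - δ) ^ k + (1 - δ) ^ (k + 2) ≤ 2 * (1 + δ ^ 2) * (1 - δ) ^ (k + 1) := by
    intro k
    have h1 : (0 : ℝ) ≤ (1 - δ) ^ k := pow_nonneg hq k
    have h2 : 1 + (1 - δ) ^ 2 ≤ 2 * (1 + δ ^ 2) * (1 - δ) := by nlinarith [mul_nonneg hδ0 hδ0]
    calc (1 - δ) ^ k + (1 - δ) ^ (k + 2) = (1 - δ) ^ k * (1 + (1 - δ) ^ 2) := by ring
      _ ≤ (1 - δ) ^ k * (2 * (1 + δ ^ 2) * (1 - δ)) := mul_le_mul_of_nonneg_left h2 h1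
      _ = _ := by ring
  have hd2 : 0 ≤ δ ^ 2 := by positivity
  rcases lt_trichotomy s 0 with h | h | h
  · rw [if_neg (by omega), pow_zero, one_mul]
    obtain ⟨k, hk⟩ : ∃ k : ℕ, s.natAbs = k + 1 := ⟨s.natAbs - 1, by omega⟩
    have e1 : (s - 1).natAbs = k + 2 := by omega
    have e2 : (s + 1).natAbs = k := by omega
    rw [hk, e1, e2]
    linarith [key k]
  · subst h
    simp
    nlinarith
  · rw [if_neg (by omega), pow_zero, one_mul]
    obtain ⟨k, hk⟩ : ∃ k : ℕ, s.natAbs = k + 1 := ⟨s.natAbs - 1, by omega⟩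
    have e1 : (s - 1).natAbs = k := by omega
    have e2 : (s + 1).natAbs = k + 2 := by omega
    rw [hk, e1, e2]
    linarith [key k]

theorem ret_succ (n : ℕ) (T : Finset ℕ) (hT : T ⊆ range n) :
    ret (n + 1) T = ret n T + (if 2 * (T.card : ℤ) - n = 0 then 1 else 0) := by
  unfold ret
  rw [range_add_one, filter_insert, inter_eq_left.2 hT]
  by_cases h : 2 * T.card = n
  · rw [if_pos h, if_pos (by omega), card_insert_of_notMem (by simp)]
  · rw [if_neg h, if_neg (by omega), add_zero]

theorem ret_insert (n : ℕ) (T : Finset ℕ) : ret (n + 1) (insert n T) = ret (n + 1) T := by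
  unfold ret
  congr 1
  refine filter_congr fun j hj => ?_
  have : insert n T ∩ range j = T ∩ range j := by
    have hj' := mem_range.1 hj
    ext i
    simp only [mem_inter, mem_insert, mem_range]
    constructor
    · rintro ⟨h | h, h'⟩
      · omega
      · exact ⟨h, h'⟩
    · rintro ⟨h, h'⟩
      exact ⟨Or.inr h, h'⟩
  rw [this]

theorem expmom_aux (δ : ℝ) (hδ0 : 0 ≤ δ) (hδ : δ ≤ 1 / 2) (n : ℕ) :
    ∑ T ∈ (range n).powerset, (1 + δ / 2) ^ (ret n T) *
      (1 + (1 - δ) ^ (2 * (T.card : ℤ) - n).natAbs) ≤ (2 * (1 + δ ^ 2)) ^ n * 2 := by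
  induction n with
  | zero => simp [ret]; norm_num
  | succ n ih =>
    rw [range_add_one, sum_powerset_insert (by simp), ← sum_add_distrib]
    have h1 : ∀ T ∈ (range n).powerset,
        (1 + δ / 2) ^ (ret (n + 1) T) * (1 + (1 - δ) ^ (2 * (T.card : ℤ) - (n + 1 : ℕ)).natAbs) +
        (1 + δ / 2) ^ (ret (n + 1) (insert n T)) *
          (1 + (1 - δ) ^ (2 * ((insert n T).card : ℤ) - (n + 1 : ℕ)).natAbs) ≤
        (2 * (1 + δ ^ 2)) * ((1 + δ / 2) ^ (ret n T) *
          (1 + (1 - δ) ^ (2 * (T.card : ℤ) - n).natAbs)) := by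
      intro T hT
      have hT' := mem_powerset.1 hT
      have hn : n ∉ T := fun h => by simpa using hT' h
      rw [ret_insert, card_insert_of_notMem hn, ret_succ n T hT', pow_add]
      have h2 := step_ineq δ hδ0 hδ (2 * (T.card : ℤ) - n)
      have e1 : 2 * (T.card : ℤ) - ((n + 1 : ℕ) : ℤ) = 2 * (T.card : ℤ) - n - 1 := by
        push_cast; ring
      have e2 : 2 * ((T.card + 1 : ℕ) : ℤ) - ((n + 1 : ℕ) : ℤ) = 2 * (T.card : ℤ) - n + 1 := by
        push_cast; ring
      rw [e1, e2]
      have h3 : (0 : ℝ) ≤ (1 + δ / 2) ^ (ret n T) := by positivity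
      have h4 := mul_le_mul_of_nonneg_left h2 h3
      refine le_trans (le_of_eq ?_) (h4.trans (le_of_eq ?_))
      · ring
      · ring
    refine (sum_le_sum h1).trans ?_
    rw [← mul_sum, pow_succ]
    have h5 : (0 : ℝ) ≤ 2 * (1 + δ ^ 2) := by positivity
    have h6 := mul_le_mul_of_nonneg_left ih h5
    refine h6.trans (le_of_eq ?_)
    ring

/-- exponential moment of the number of returns -/
theorem expmom (δ : ℝ) (hδ0 : 0 ≤ δ) (hδ : δ ≤ 1 / 2) (n : ℕ) :
    ∑ T ∈ (range n).powerset, (1 + δ / 2) ^ (ret n T) ≤ 2 ^ n * (2 * Real.exp (n * δ ^ 2)) := by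
  have h1 := expmom_aux δ hδ0 hδ n
  have h2 : ∑ T ∈ (range n).powerset, (1 + δ / 2) ^ (ret n T) ≤
      ∑ T ∈ (range n).powerset, (1 + δ / 2) ^ (ret n T) *
      (1 + (1 - δ) ^ (2 * (T.card : ℤ) - n).natAbs) := by
    refine sum_le_sum fun T _ => ?_
    refine le_mul_of_one_le_right (by positivity) ?_
    have : (0 : ℝ) ≤ (1 - δ) ^ (2 * (T.card : ℤ) - n).natAbs := pow_nonneg (by linarith) _
    linarith
  refine h2.trans (h1.trans ?_)
  rw [mul_pow, mul_assoc]
  refine mul_le_mul_of_nonneg_left ?_ (by positivity)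
  have h3 : (1 + δ ^ 2) ^ n ≤ Real.exp (n * δ ^ 2) := by
    rw [mul_comm (n : ℝ), Real.exp_mul, Real.rpow_natCast]
    refine pow_le_pow_left₀ (by positivity) ?_ n
    have := Real.add_one_le_exp (δ ^ 2)
    linarith
  linarith

variable {p : ℕ} [Fact p.Prime]

/-- number of returns of the walk `χ(x + 1) + … + χ(x + j)`, `0 ≤ j < L` -/
noncomputable def rx (p : ℕ) [Fact p.Prime] (L : ℕ) (x : ZMod p) : ℕ :=
  ((range L).filter (fun j => ∑ i ∈ range j, quadraticChar (ZMod p) (x + ((i : ZMod p) + 1)) = 0)).card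

theorem sum_rx (hp2 : p ≠ 2) (L : ℕ) (hL : L ≤ p) (b : ℝ) (hb : 1 ≤ b) :
    ∑ x : ZMod p, b ^ (rx p L x) ≤ L * b ^ L +
      (∑ T ∈ (range L).powerset, b ^ (ret L T)) * (p / 2 ^ L + L * Real.sqrt p) := by
  classical
  have hb0 : 0 ≤ b := by linarith
  set bad : Finset (ZMod p) := (range L).image (fun j : ℕ => -((j : ZMod p) + 1)) with hbad
  set P : Finset ℕ → Finset (ZMod p) := fun T => (univ : Finset (ZMod p)).filter
    (fun x => ∀ j ∈ range L,
        quadraticChar (ZMod p) (x + ((j : ZMod p) + 1)) = if j ∈ T then 1 else -1) with hP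
  have h1 : ∀ x : ZMod p, b ^ (rx p L x) ≤ (if x ∈ bad then b ^ L else 0) +
      ∑ T ∈ (range L).powerset, (if x ∈ P T then b ^ (ret L T) else 0) := by
    intro x
    have hnn : ∀ T ∈ (range L).powerset, 0 ≤ (if x ∈ P T then b ^ (ret L T) else 0) := by
      intro T _
      split_ifs
      · positivity
      · exact le_rfl
    by_cases hx : x ∈ bad
    · rw [if_pos hx]
      have h2 : b ^ (rx p L x) ≤ b ^ L := by
        refine pow_le_pow_right₀ hb ?_
        have := card_le_card (filter_subset (fun j => ∑ i ∈ range j,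
          quadraticChar (ZMod p) (x + ((i : ZMod p) + 1)) = 0) (range L))
        rwa [card_range] at this
      have h3 := sum_nonneg hnn
      linarith
    · rw [if_neg hx, zero_add]
      have hne : ∀ j ∈ range L, x + ((j : ZMod p) + 1) ≠ 0 := by
        intro j hj h0
        exact hx (mem_image.2 ⟨j, hj, (eq_neg_of_add_eq_zero_left h0).symm⟩)
      set T := (range L).filter (fun j : ℕ => quadraticChar (ZMod p) (x + ((j : ZMod p) + 1)) = 1)
        with hT
      have hpat : ∀ j ∈ range L,
          quadraticChar (ZMod p) (x + ((j : ZMod p) + 1)) = if j ∈ T then 1 else -1 := by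
        intro j hj
        by_cases h : j ∈ T
        · rw [if_pos h]; exact (mem_filter.1 h).2
        · rw [if_neg h]
          rcases quadraticChar_dichotomy (hne j hj) with h' | h'
          · exact absurd (mem_filter.2 ⟨hj, h'⟩) h
          · exact h'
      have hTm : T ∈ (range L).powerset := mem_powerset.2 (filter_subset _ _)
      refine le_trans (le_of_eq ?_) (single_le_sum hnn hTm)
      rw [if_pos (mem_filter.2 ⟨mem_univ _, hpat⟩)]
      congr 1
      unfold rx ret
      congr 1
      refine filter_congr fun j hj => ?_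
      have hj' := mem_range.1 hj
      have hsum : ∑ i ∈ range j, quadraticChar (ZMod p) (x + ((i : ZMod p) + 1)) =
          2 * ((T ∩ range j).card : ℤ) - j := by
        rw [sum_congr rfl (fun i hi => hpat i (mem_range.2 (lt_trans (mem_range.1 hi) hj')))]
        rw [← sum_filter_add_sum_filter_not (range j) (fun i => i ∈ T)]
        rw [sum_congr rfl (g := fun _ => (1 : ℤ)) (fun i hi => by rw [if_pos (mem_filter.1 hi).2]),
          sum_congr (s₁ := (range j).filter (fun i => i ∉ T)) rfl (g := fun _ => (-1 : ℤ))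
            (fun i hi => by rw [if_neg (mem_filter.1 hi).2])]
        rw [sum_const, sum_const]
        have e1 : (range j).filter (fun i => i ∈ T) = T ∩ range j := by
          ext i
          simp only [mem_filter, mem_inter]
          tauto
        have e2 := card_filter_add_card_filter_not (s := range j) (fun i => i ∈ T)
        rw [e1, card_range] at e2
        rw [e1]
        simp only [nsmul_eq_mul, mul_one, mul_neg]
        omega
      rw [hsum]
      omega
  refine (sum_le_sum fun x _ => h1 x).trans ?_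
  rw [sum_add_distrib, sum_comm]
  refine add_le_add ?_ ?_
  · rw [← sum_filter, sum_const, nsmul_eq_mul]
    refine mul_le_mul_of_nonneg_right ?_ (by positivity)
    have h3 : bad.card ≤ L := by
      rw [hbad]
      exact card_image_le.trans (by rw [card_range])
    have h4 : (univ : Finset (ZMod p)).filter (fun x => x ∈ bad) = bad := by
      ext x; simp
    rw [h4]
    exact_mod_cast h3
  · rw [sum_mul]
    refine sum_le_sum fun T _ => ?_
    rw [← sum_filter, sum_const, nsmul_eq_mul, mul_comm]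
    refine mul_le_mul_of_nonneg_left ?_ (by positivity)
    have h4 : (univ : Finset (ZMod p)).filter (fun x => x ∈ P T) = P T := by
      ext x; simp
    rw [h4]
    exact pattern hp2 L hL T

end Pool.Agent.H996.LS
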