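import Mathlib
import Pool.Agent.H996.LS5

set_option autoImplicit false

namespace Pool.Agent.H996.LS

open Finset

variable {p : ℕ} [Fact p.Prime]

theorem z_le (b : ℝ) (hb : 1 < b) (A : ℝ) (z : ℕ) :
    (z : ℝ) ≤ A + Real.exp (-(A * Real.log b)) / Real.log b * b ^ z := by
  have hlog : 0 < Real.log b := Real.log_pos hb
  have h1 : ((z : ℝ) - A) * Real.log b ≤ Real.exp (((z : ℝ) - A) * Real.log b) := by
    have := Real.add_one_le_exp (((z : ℝ) - A) * Real.log b)
    linarith
  have h2 : Real.exp (((z : ℝ) - A) * Real.log b) = Real.exp (-(A * Real.log b)) * b ^ z := by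
    rw [sub_mul, sub_eq_add_neg, Real.exp_add, Real.exp_nat_mul, Real.exp_log (by linarith)]
    ring
  rw [h2] at h1
  have h3 : (z : ℝ) - A ≤ Real.exp (-(A * Real.log b)) * b ^ z / Real.log b := by
    rw [le_div_iff₀ hlog]; exact h1
  have h4 : Real.exp (-(A * Real.log b)) / Real.log b * b ^ z =
      Real.exp (-(A * Real.log b)) * b ^ z / Real.log b := by ring
  rw [h4]
  linarith

/-- a window with a member of the level set has at most as many of them as there are returns from the
first one -/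
theorem window_le (a : ZMod p) (h : ℤ) (L k m : ℕ) (hL : 1 ≤ L)
    (hm : m ∈ (lev p a h).filter (fun t => t / L = k))
    (hmin : ∀ t ∈ (lev p a h).filter (fun t => t / L = k), m ≤ t) :
    ((lev p a h).filter (fun t => t / L = k)).card ≤ rx p L (a + (m : ZMod p)) := by
  unfold rx
  obtain ⟨hm1, hm2⟩ := mem_filter.1 hm
  have hm3 := (mem_filter.1 hm1).2
  refine card_le_card_of_injOn (fun t => t - m) ?_ ?_
  · intro t ht
    have hmt := hmin t (mem_coe.1 ht)
    obtain ⟨ht1, ht2⟩ := mem_filter.1 (mem_coe.1 ht)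
    have ht3 := (mem_filter.1 ht1).2
    have e1 := Nat.div_add_mod t L
    have e2 := Nat.div_add_mod m L
    have e3 := Nat.mod_lt t (show 0 < L by omega)
    have e4 := Nat.mod_lt m (show 0 < L by omega)
    rw [ht2] at e1
    rw [hm2] at e2
    have e5 : t - m < L := by omega
    refine mem_coe.2 (mem_filter.2 ⟨mem_range.2 e5, ?_⟩)
    rw [show t + 1 = m + 1 + (t - m) by omega, sum_range_add, hm3] at ht3
    have h5 : ∑ x ∈ range (t - m), quadraticChar (ZMod p) (a + ((m + 1 + x : ℕ) : ZMod p)) = 0 := by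
      linarith
    rw [← h5]
    refine sum_congr rfl fun x _ => ?_
    congr 1
    push_cast
    ring
  · intro t ht s hs hts
    have h1 := hmin t (mem_coe.1 ht)
    have h2 := hmin s (mem_coe.1 hs)
    simp only at hts
    omega

theorem windows2 (a : ZMod p) (h : ℤ) (L : ℕ) (hL : 1 ≤ L) (b : ℝ) (hb : 1 < b) (A : ℝ)
    (hA : 0 ≤ A) :
    ((lev p a h).card : ℝ) ≤ A * ((p / L : ℕ) + 1 : ℝ) +
      Real.exp (-(A * Real.log b)) / Real.log b * ∑ x : ZMod p, b ^ (rx p L x) := by
  classical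
  set V := lev p a h with hV
  have hVp : V ⊆ range p := filter_subset _ _
  set c : ℝ := Real.exp (-(A * Real.log b)) / Real.log b with hc
  have hlog : 0 < Real.log b := Real.log_pos hb
  have hc0 : 0 ≤ c := by positivity
  have hb0 : (0 : ℝ) ≤ b := by linarith
  set z : ℕ → ℕ := fun k => (V.filter (fun t => t / L = k)).card with hz
  have h1 : V.card = ∑ k ∈ range (p / L + 1), z k := by
    rw [hz]
    refine card_eq_sum_card_fiberwise (f := fun t => t / L) (t := range (p / L + 1)) ?_
    intro t ht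
    have : t < p := mem_range.1 (hVp ht)
    simp only [coe_range, Set.mem_Iio]
    exact Nat.lt_succ_of_le (Nat.div_le_div_right this.le)
  set g : ℕ → ℕ := fun k => if hk : (V.filter (fun t => t / L = k)).Nonempty then
    (V.filter (fun t => t / L = k)).min' hk else 0 with hg
  set K := (range (p / L + 1)).filter (fun k => (V.filter (fun t => t / L = k)).Nonempty) with hK
  have hgmem : ∀ k ∈ K, g k ∈ V.filter (fun t => t / L = k) := by
    intro k hk
    have hk' := (mem_filter.1 hk).2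
    rw [hg]
    simp only
    rw [dif_pos hk']
    exact min'_mem _ _
  have hgmin : ∀ k ∈ K, ∀ t ∈ V.filter (fun t => t / L = k), g k ≤ t := by
    intro k hk t ht
    have hk' := (mem_filter.1 hk).2
    rw [hg]
    simp only
    rw [dif_pos hk']
    exact min'_le _ _ ht
  have h2 : ∀ k ∈ range (p / L + 1), (z k : ℝ) ≤
      A + c * (if (V.filter (fun t => t / L = k)).Nonempty then
        b ^ (rx p L (a + (g k : ZMod p))) else 0) := by
    intro k hk
    by_cases hne : (V.filter (fun t => t / L = k)).Nonempty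
    · rw [if_pos hne]
      have hkK : k ∈ K := mem_filter.2 ⟨hk, hne⟩
      have h3 := window_le a h L k (g k) hL (hgmem k hkK) (hgmin k hkK)
      have h4 := z_le b hb A (z k)
      have h5 : b ^ (z k) ≤ b ^ (rx p L (a + (g k : ZMod p))) := pow_le_pow_right₀ hb.le h3
      have h6 := mul_le_mul_of_nonneg_left h5 hc0
      linarith
    · rw [if_neg hne, mul_zero, add_zero]
      have : z k = 0 := by
        rw [hz]
        simp only
        rw [not_nonempty_iff_eq_empty.1 hne, card_empty]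
      rw [this]
      simpa using hA
  have h3 : ∑ k ∈ range (p / L + 1), (if (V.filter (fun t => t / L = k)).Nonempty then
        b ^ (rx p L (a + (g k : ZMod p))) else 0) ≤ ∑ x : ZMod p, b ^ (rx p L x) := by
    rw [← sum_filter]
    have hinj : Set.InjOn (fun k : ℕ => a + (g k : ZMod p)) (K : Set ℕ) := by
      intro k hk k' hk' hkk
      have e1 := mem_filter.1 (hgmem k (mem_coe.1 hk))
      have e2 := mem_filter.1 (hgmem k' (mem_coe.1 hk'))
      have e3 : g k < p := mem_range.1 (hVp e1.1)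
      have e4 : g k' < p := mem_range.1 (hVp e2.1)
      have e5 : (g k : ZMod p) = (g k' : ZMod p) := by simpa using hkk
      rw [ZMod.natCast_eq_natCast_iff', Nat.mod_eq_of_lt e3, Nat.mod_eq_of_lt e4] at e5
      have e6 := e1.2
      rw [e5, e2.2] at e6
      exact e6.symm
    rw [← sum_image (s := K) (g := fun k : ℕ => a + (g k : ZMod p))
      (f := fun x => b ^ (rx p L x)) hinj]
    exact sum_le_sum_of_subset_of_nonneg (subset_univ _) (fun x _ _ => by positivity)
  have h4 : (V.card : ℝ) = ∑ k ∈ range (p / L + 1), (z k : ℝ) := by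
    rw [h1]; push_cast; rfl
  rw [h4]
  refine (sum_le_sum h2).trans ?_
  rw [sum_add_distrib, sum_const, card_range, nsmul_eq_mul, ← mul_sum]
  have h5 := mul_le_mul_of_nonneg_left h3 hc0
  push_cast
  have h6 : ((p / L : ℕ) + 1 : ℝ) * A = A * ((p / L : ℕ) + 1 : ℝ) := by ring
  linarith

theorem main2_L (hp2 : p ≠ 2) (a : ZMod p) (h : ℤ) (L : ℕ) (hL : 4 ≤ L) (hLp : 16 ^ L ≤ p) :
    ((lev p a h).card : ℝ) ≤ p * (8 * Real.log L + 52) / Real.sqrt L := by
  classical
  have hp0 : (0 : ℝ) < p := by exact_mod_cast (Fact.out : p.Prime).pos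
  have hLlt : L < p := by
    have h1 : L < 2 ^ L := Nat.lt_two_pow_self
    have h2 : 2 ^ L ≤ 16 ^ L := Nat.pow_le_pow_left (by norm_num) L
    omega
  have hL0 : (0 : ℝ) < L := by exact_mod_cast (show 0 < L by omega)
  have hL4 : (4 : ℝ) ≤ L := by exact_mod_cast hL
  have hs2 : (2 : ℝ) ≤ Real.sqrt L := by
    apply Real.le_sqrt_of_sq_le
    norm_num
    exact hL
  have hs0 : 0 < Real.sqrt L := by linarith
  have hss : Real.sqrt L * Real.sqrt L = L := Real.mul_self_sqrt hL0.le
  set δ : ℝ := 1 / Real.sqrt L with hδ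
  have hδ0 : 0 < δ := by positivity
  have hδ1 : δ ≤ 1 / 2 := one_div_le_one_div_of_le (by norm_num) hs2
  have hδ2 : (L : ℝ) * δ ^ 2 = 1 := by
    rw [hδ, div_pow, one_pow, sq, hss]
    field_simp
  set b : ℝ := 1 + δ / 2 with hb
  have hb1 : 1 < b := by rw [hb]; linarith
  have hb2 : b ≤ 2 := by rw [hb]; linarith
  have hlogb : δ / 4 ≤ Real.log b := by
    have h1 := Real.one_sub_inv_le_log_of_pos (show 0 < b by linarith)
    have h2 : δ / 4 ≤ 1 - b⁻¹ := by
      have h3 : 1 - b⁻¹ = (b - 1) / b := by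
        field_simp
      rw [h3, le_div_iff₀ (by linarith)]
      have h4 : b - 1 = δ / 2 := by rw [hb]; ring
      rw [h4]
      nlinarith
    linarith
  have hlogb0 : 0 < Real.log b := by linarith
  have hlogL : 0 ≤ Real.log L := Real.log_nonneg (by linarith)
  -- the exponential sum
  have hsp0 : 0 < Real.sqrt p := Real.sqrt_pos.2 hp0
  have h16 : (16 : ℝ) ^ L ≤ p := by exact_mod_cast hLp
  have hsp : (4 : ℝ) ^ L ≤ Real.sqrt p := by
    apply Real.le_sqrt_of_sq_le
    rw [← pow_mul, mul_comm, pow_mul]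
    norm_num
    exact h16
  have hspp : Real.sqrt p * Real.sqrt p = p := Real.mul_self_sqrt hp0.le
  have h4p : (4 : ℝ) ^ L * Real.sqrt p ≤ p := by
    calc (4 : ℝ) ^ L * Real.sqrt p ≤ Real.sqrt p * Real.sqrt p :=
          mul_le_mul_of_nonneg_right hsp hsp0.le
      _ = p := hspp
  have hL2 : (L : ℝ) ≤ 2 ^ L := by exact_mod_cast (Nat.lt_two_pow_self (n := L)).le
  have h44 : (2 : ℝ) ^ L * 2 ^ L = 4 ^ L := by rw [← mul_pow]; norm_num
  have hE : ∑ x : ZMod p, b ^ (rx p L x) ≤ 13 * p := by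
    refine (sum_rx hp2 L hLlt.le b hb1.le).trans ?_
    have h1 := expmom δ hδ0.le hδ1 L
    rw [hδ2] at h1
    have h2 : (2 : ℝ) ^ L * (2 * Real.exp 1) ≤ 2 ^ L * 6 := by
      have := Real.exp_one_lt_d9
      have h3 : 2 * Real.exp 1 ≤ 6 := by linarith
      exact mul_le_mul_of_nonneg_left h3 (by positivity)
    have h3 : (∑ T ∈ (range L).powerset, b ^ (ret L T)) * (p / 2 ^ L + L * Real.sqrt p) ≤
        (2 ^ L * 6) * (p / 2 ^ L + L * Real.sqrt p) :=
      mul_le_mul_of_nonneg_right (h1.trans h2) (by positivity)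
    have h4 : ((2 : ℝ) ^ L * 6) * (p / 2 ^ L + L * Real.sqrt p) =
        6 * p + 6 * (L * 2 ^ L * Real.sqrt p) := by
      field_simp
    have h5 : (L : ℝ) * 2 ^ L * Real.sqrt p ≤ p := by
      refine le_trans ?_ h4p
      rw [← h44]
      exact mul_le_mul_of_nonneg_right (mul_le_mul_of_nonneg_right hL2 (by positivity)) hsp0.le
    have h6 : (L : ℝ) * b ^ L ≤ p := by
      have h7 : b ^ L ≤ 2 ^ L := pow_le_pow_left₀ (by linarith) hb2 L
      have h8 : (L : ℝ) * b ^ L ≤ 2 ^ L * 2 ^ L :=
        mul_le_mul hL2 h7 (by positivity) (by positivity)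
      have h9 : (4 : ℝ) ^ L ≤ 16 ^ L := pow_le_pow_left₀ (by norm_num) (by norm_num) L
      rw [h44] at h8
      linarith
    linarith
  set A : ℝ := Real.log L / Real.log b with hA
  have hA0 : 0 ≤ A := div_nonneg hlogL hlogb0.le
  have hAlog : A * Real.log b = Real.log L := by
    rw [hA]; field_simp
  have hw := windows2 a h L (by omega) b hb1 A hA0
  rw [hAlog, Real.exp_neg, Real.exp_log hL0] at hw
  have hC : ((p / L : ℕ) + 1 : ℝ) ≤ 2 * p / L := by
    have e1 : ((p / L : ℕ) : ℝ) ≤ p / L := Nat.cast_div_le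
    have e2 : (1 : ℝ) ≤ p / L := by
      rw [le_div_iff₀ hL0, one_mul]; exact_mod_cast hLlt.le
    have e3 : (2 : ℝ) * p / L = p / L + p / L := by ring
    rw [e3]; linarith
  have hinv : 1 / Real.log b ≤ 4 * Real.sqrt L := by
    rw [div_le_iff₀ hlogb0]
    have e1 : 4 * Real.sqrt L * (δ / 4) ≤ 4 * Real.sqrt L * Real.log b :=
      mul_le_mul_of_nonneg_left hlogb (by positivity)
    have e2 : 4 * Real.sqrt L * (δ / 4) = 1 := by
      rw [hδ]; field_simp
    linarith
  have h1 : A * ((p / L : ℕ) + 1 : ℝ) ≤ (Real.log L * (4 * Real.sqrt L)) * (2 * p / L) := by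
    refine mul_le_mul ?_ hC (by positivity) (by positivity)
    rw [hA, div_eq_mul_one_div]
    exact mul_le_mul_of_nonneg_left hinv hlogL
  have h2 : (L : ℝ)⁻¹ / Real.log b * ∑ x : ZMod p, b ^ (rx p L x) ≤
      ((L : ℝ)⁻¹ * (4 * Real.sqrt L)) * (13 * p) := by
    refine mul_le_mul ?_ hE (sum_nonneg fun x _ => by positivity) (by positivity)
    rw [div_eq_mul_one_div]
    exact mul_le_mul_of_nonneg_left hinv (by positivity)
  refine (hw.trans (add_le_add h1 h2)).trans (le_of_eq ?_)
  have hLs : (L : ℝ) = Real.sqrt L * Real.sqrt L := hss.symm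
  have hs0' : Real.sqrt L ≠ 0 := hs0.ne'
  have e1 : (Real.log L * (4 * Real.sqrt L)) * (2 * p / L) =
      8 * Real.log L * p * (Real.sqrt L / L) := by ring
  have e2 : ((L : ℝ)⁻¹ * (4 * Real.sqrt L)) * (13 * p) = 52 * p * (Real.sqrt L / L) := by
    rw [div_eq_mul_inv]; ring
  have e3 : Real.sqrt L / L = 1 / Real.sqrt L := by
    rw [div_eq_div_iff hL0.ne' hs0', one_mul, hss]
  rw [e1, e2, e3]
  ring

end Pool.Agent.H996.LS
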